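import Pool.Agent.H44.GT.All

/-!
# Dilation surfaces of genus at most two
-/

set_option autoImplicit false

namespace Pool.Agent.Results.MP_81a758_an.GenusTwo

open Pool.Agent.H44.DU MeasureTheory

/-- Let `S₀` be a connected dilation surface glued from triangles, whose vertices are conical
singularities (or regular points), which is not a translation surface, and whose Euler
characteristic is at least `-2`, that is, whose genus is at most two. Then the foliation of
direction `θ` of `S₀` is Morse-Smale for almost every `θ`, and so is the foliation of direction `θ`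
of every finite cover of `S₀` branched at the vertices. -/
theorem result {n : ℕ} (S₀ : Surf n) (hc : S₀.Connected) (hcon : S₀.Conical)
    (hT : ¬ S₀.IsTranslation) (hg : -2 ≤ S₀.euler) :
    (∀ᵐ θ : ℝ, S₀.MorseSmale (Complex.exp (θ * Complex.I))) ∧
    ∀ (m : ℕ) (S : Surf m) (π : Fin m → Fin n), 0 < m → S.Covers S₀ π →
      ∀ᵐ θ : ℝ, S.MorseSmale (Complex.exp (θ * Complex.I)) :=
  Pool.Agent.H44.GT.All.genus_two S₀ hc hcon hT hg

end Pool.Agent.Results.MP_81a758_an.GenusTwo
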