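import Pool.Agent.H44.DU.All

/-!
# Almost every directional foliation of a dilation surface with height functions is Morse-Smale
-/

set_option autoImplicit false

namespace Pool.Agent.Results.MP_81a758_an.HeightFunctions

open Pool.Agent.H44.DU MeasureTheory

/-- Let `S` be a connected dilation surface glued from triangles, with a gluing scale different
from `1`. (1) If `S`, turned by `w`, has height functions for the directions `t + i` with `t` in
the open set `J`, then the foliation of `S` is Morse-Smale in almost every direction which becomes
such a direction (or its opposite) after turning by `w`. (2) If it has height functions for all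
real `t`, the foliation is Morse-Smale in almost every direction. (3) If `S` consists of storeys,
the foliation is Morse-Smale in almost every direction. -/
theorem result {n : ℕ} (S : Surf n) (hc : S.Connected) (ha : ∃ s, S.a s ≠ 1) :
    (∀ (w : ℂ) (hw : w ≠ 0) (J : Set ℝ), IsOpen J → (S.turn w hw).HasHeights J →
      ∀ᵐ θ : ℝ, (∃ t ∈ J, ∃ l : ℝ, l ≠ 0 ∧
        w * Complex.exp (θ * Complex.I) = (l : ℂ) * ((t : ℂ) + Complex.I)) →
        S.MorseSmale (Complex.exp (θ * Complex.I))) ∧
    (∀ (w : ℂ) (hw : w ≠ 0), (S.turn w hw).HasHeights Set.univ →
      ∀ᵐ θ : ℝ, S.MorseSmale (Complex.exp (θ * Complex.I))) ∧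
    (∀ (up : ℤ → Prop) (lev : Fin n → ℤ), S.Storeys up lev →
      ∀ᵐ θ : ℝ, S.MorseSmale (Complex.exp (θ * Complex.I))) :=
  Pool.Agent.H44.DU.All.thm S hc ha

end Pool.Agent.Results.MP_81a758_an.HeightFunctions
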