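import Pool.Agent.H44.GT.All

/-!
# Almost every directional foliation of a dilation surface is Morse-Smale or minimal
-/

set_option autoImplicit false

namespace Pool.Agent.Results.MP_81a758_an.MinimalNoDensity

open Pool.Agent.H44.DU MeasureTheory

/-- Let `S` be a connected dilation surface glued from triangles. In almost every direction, the
foliation is Morse-Smale, or it is minimal, its scales grow and decrease subexponentially,
uniformly, and, if `S` is not a translation surface, its scales are unbounded and it has no
invariant transverse measure with a square integrable density. -/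
theorem result {n : ℕ} (S : Surf n) (hc : S.Connected) :
    ∀ᵐ θ : ℝ, S.MorseSmale (Complex.exp (θ * Complex.I)) ∨
      (S.Minimal (Complex.exp (θ * Complex.I)) ∧ S.Subexp (Complex.exp (θ * Complex.I)) ∧
        (¬ S.IsTranslation → S.Unb (Complex.exp (θ * Complex.I)) ∧
          ¬ ∃ f, S.LD (Real.cos θ / Real.sin θ) f)) := by
  by_cases hT : S.IsTranslation
  · filter_upwards [(Pool.Agent.H44.DV.All.thm S hc).1] with θ h
    rcases h with h | ⟨a1, a2⟩
    · exact Or.inl h
    · exact Or.inr ⟨a1, a2, fun h => absurd hT h⟩
  · obtain ⟨e1, e2⟩ := Pool.Agent.H44.GT.All.every_genus S hc hT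
    have e3 : ∀ᵐ θ : ℝ, S.MorseSmale (Complex.exp (θ * Complex.I)) ∨
        ¬ ∃ f, S.LD (Real.cos θ / Real.sin θ) f := by
      rw [ae_iff] at e2
      filter_upwards [Pool.Agent.H44.DU.All.r_AE _ e2] with θ ⟨t, ht, l, hl, he⟩
      have ht := not_not.1 ht
      have hs : Real.sin θ = l := by
        have h := congrArg Complex.im he
        rw [Complex.exp_ofReal_mul_I_im] at h
        simpa using h
      have hco : Real.cos θ = l * t := by
        have h := congrArg Complex.re he
        rw [Complex.exp_ofReal_mul_I_re] at h
        simpa using h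
      rcases ht with ht | ⟨-, ht⟩
      · left
        rw [he]
        exact ms_scale Pool.Agent.H44.DU.All.r_SC S _ l hl ht
      · right
        rw [hs, hco, mul_div_cancel_left₀ t hl]
        exact ht
    filter_upwards [e1, e3] with θ h1 h3
    rcases h1 with h1 | ⟨a1, a2, a3⟩
    · exact Or.inl h1
    · rcases h3 with h3 | h3
      · exact Or.inl h3
      · exact Or.inr ⟨a1, a2, fun _ => ⟨a3, h3⟩⟩

end Pool.Agent.Results.MP_81a758_an.MinimalNoDensity
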