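import Pool.Agent.H8.DS.All

/-!
# Dilation surfaces glued from flat tori and Hopf tori along horizontal slits

For every surface of this class (see `Pool/Agent/H8/DS/Defs.lean`) the foliation of direction `θ`,
spanned by `(cos θ, sin θ)`, that is by `(cos θ / sin θ, 1)`, is Morse-Smale for almost every `θ`.
-/

set_option autoImplicit false

theorem Pool.Agent.Results.MP_81a758_an.SlitGluings.result :
    ∀ (C S : Type) [Finite C] [Finite S] (X : DS.Data C S), X.Surface → X.Upper →
      X.Contracting → ∀ᵐ θ : ℝ, X.MorseSmale (Real.cos θ / Real.sin θ) :=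
  fun C S _ _ X h1 h2 h3 => DS.All.r_MAIN C S X h1 h2 h3
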